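import Mathlib

/-!
# Invariant cliques in graphs whose maximal cliques pairwise intersect

If the maximal cliques of a finite graph pairwise intersect and a finite solvable group acts on the
graph, then the maximal invariant cliques pairwise intersect (in particular there are nonempty
invariant cliques).
-/

set_option autoImplicit false

namespace Pool.Agent.Helper227_CLQ

open Finset

universe u v

section count

variable {V : Type v}

open scoped Classical in
/-- The signed number of complete sets inside `W` is zero if some complete `σ ⊆ W` meets, up to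
extension, all of them. -/
theorem signed_count [Finite V] (G : SimpleGraph V) (W σ : Finset V) (hσW : σ ⊆ W)
    (hσ : G.IsClique (σ : Set V))
    (h : ∀ Q ⊆ W, G.IsClique (Q : Set V) → ∃ v ∈ σ, ∀ w ∈ Q, v ≠ w → G.Adj v w) :
    ∑ Q ∈ W.powerset.filter (fun Q : Finset V => G.IsClique (Q : Set V)), (-1 : ℤ) ^ Q.card = 0 := by
  set C := W.powerset.filter (fun Q : Finset V => G.IsClique (Q : Set V)) with hC
  let A : Finset V → Finset V := fun Q => σ.filter fun v => ∀ w ∈ Q, v ≠ w → G.Adj v w
  have hCm : ∀ Q, Q ∈ C ↔ Q ⊆ W ∧ G.IsClique (Q : Set V) := by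
    intro Q
    simp only [hC, mem_filter, mem_powerset]
  have h1 : ∑ Q ∈ C, ∑ ρ ∈ σ.powerset, (if ρ ⊆ A Q then (-1 : ℤ) ^ Q.card * (-1) ^ ρ.card else 0)
      = 0 := by
    refine Finset.sum_eq_zero fun Q hQ => ?_
    rw [← Finset.sum_filter]
    have e1 : σ.powerset.filter (fun ρ => ρ ⊆ A Q) = (A Q).powerset := by
      ext ρ
      simp only [mem_filter, mem_powerset]
      exact ⟨fun h => h.2, fun h => ⟨h.trans (filter_subset _ _), h⟩⟩
    rw [e1, ← Finset.mul_sum]
    have hne : (A Q).Nonempty := by
      obtain ⟨v, hv, hvw⟩ := h Q ((hCm Q).1 hQ).1 ((hCm Q).1 hQ).2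
      exact ⟨v, mem_filter.2 ⟨hv, hvw⟩⟩
    rw [sum_powerset_neg_one_pow_card_of_nonempty hne, mul_zero]
  rw [Finset.sum_comm] at h1
  have h2 : ∀ ρ ∈ σ.powerset, ρ ≠ ∅ →
      ∑ Q ∈ C, (if ρ ⊆ A Q then (-1 : ℤ) ^ Q.card * (-1) ^ ρ.card else 0) = 0 := by
    intro ρ hρ hne
    obtain ⟨v, hv⟩ := nonempty_iff_ne_empty.2 hne
    have hρσ : ρ ⊆ σ := mem_powerset.1 hρ
    rw [← Finset.sum_filter]
    have hAm : ∀ Q, ρ ⊆ A Q ↔ ∀ x ∈ ρ, ∀ w ∈ Q, x ≠ w → G.Adj x w := by
      intro Q
      constructor
      · intro hQ x hx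
        exact (mem_filter.1 (hQ hx)).2
      · intro hQ x hx
        exact mem_filter.2 ⟨hρσ hx, hQ x hx⟩
    have hmem : ∀ Q, Q ∈ C.filter (fun Q => ρ ⊆ A Q) ↔
        Q ⊆ W ∧ G.IsClique (Q : Set V) ∧ ∀ x ∈ ρ, ∀ w ∈ Q, x ≠ w → G.Adj x w := by
      intro Q
      rw [mem_filter, hCm, hAm, and_assoc]
    let t : Finset V → Finset V := fun Q => if v ∈ Q then Q.erase v else insert v Q
    have htt : ∀ Q, t (t Q) = Q := by
      intro Q
      by_cases hvQ : v ∈ Q
      · simp only [t, if_pos hvQ, mem_erase, ne_eq, not_true_eq_false, false_and, if_false]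
        exact insert_erase hvQ
      · simp only [t, if_neg hvQ, mem_insert, true_or, if_true]
        exact erase_insert hvQ
    refine Finset.sum_involution (fun Q _ => t Q) ?_ ?_ ?_ (fun Q _ => htt Q)
    · intro Q _
      by_cases hvQ : v ∈ Q
      · have hc : Q.card = (Q.erase v).card + 1 := (card_erase_add_one hvQ).symm
        simp only [t, if_pos hvQ]
        rw [hc, pow_succ]
        ring
      · simp only [t, if_neg hvQ]
        rw [card_insert_of_notMem hvQ, pow_succ]
        ring
    · intro Q _ _ hQ
      by_cases hvQ : v ∈ Q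
      · simp only [t, if_pos hvQ] at hQ
        have := notMem_erase v Q
        rw [hQ] at this
        exact this hvQ
      · simp only [t, if_neg hvQ] at hQ
        apply hvQ
        rw [← hQ]
        exact mem_insert_self _ _
    · intro Q hQ
      rw [hmem] at hQ ⊢
      obtain ⟨q1, q2, q3⟩ := hQ
      by_cases hvQ : v ∈ Q
      · simp only [t, if_pos hvQ]
        refine ⟨(erase_subset _ _).trans q1, q2.subset (by
          intro x hx
          exact mem_of_mem_erase hx), ?_⟩
        intro x hx w hw
        exact q3 x hx w (mem_of_mem_erase hw)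
      · simp only [t, if_neg hvQ]
        refine ⟨?_, ?_, ?_⟩
        · intro x hx
          rcases mem_insert.1 hx with rfl | hx
          · exact hσW (hρσ hv)
          · exact q1 hx
        · rw [coe_insert, SimpleGraph.isClique_insert]
          exact ⟨q2, fun b hb hvb => q3 v hv b hb hvb⟩
        · intro x hx w hw hxw
          rcases mem_insert.1 hw with rfl | hw
          · exact hσ (mem_coe.2 (hρσ hx)) (mem_coe.2 (hρσ hv)) hxw
          · exact q3 x hx w hw hxw
  rw [Finset.sum_eq_single ∅ h2 (fun hn => absurd (empty_mem_powerset σ) hn)] at h1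
  simpa using h1

end count

section action

variable {V : Type v} {A : Type u} [Group A] [MulAction A V]

/-- Complete sets which are invariant under the group `A`. -/
def InvClq (A : Type u) [Group A] [MulAction A V] (G : SimpleGraph V) (S : Set V) : Prop :=
  G.IsClique S ∧ ∀ a : A, ∀ v ∈ S, a • v ∈ S

/-- A `p`-group has an invariant nonempty complete set inside an invariant set `W` in which the
complete sets are dominated by a complete set `σ`. -/
theorem exists_inv [Finite V] [Finite A] {p : ℕ} [Fact p.Prime] (hp : IsPGroup p A)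
    (G : SimpleGraph V) (hG : ∀ (a : A) (u v : V), G.Adj u v → G.Adj (a • u) (a • v))
    (W σ : Set V) (hW : ∀ (a : A), ∀ v ∈ W, a • v ∈ W) (hσW : σ ⊆ W) (hσ : G.IsClique σ)
    (h : ∀ Q ⊆ W, G.IsClique Q → ∃ v ∈ σ, ∀ w ∈ Q, v ≠ w → G.Adj v w) :
    ∃ Q ⊆ W, Q.Nonempty ∧ InvClq A G Q := by
  classical
  by_contra hno
  have := Fintype.ofFinite V
  let Wf : Finset V := W.toFinset
  let σf : Finset V := σ.toFinset
  have hcount := signed_count G Wf σf (by
    intro x hx
    exact Set.mem_toFinset.2 (hσW (Set.mem_toFinset.1 hx))) (by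
    simpa [σf] using hσ) (by
    intro Q hQ hQc
    obtain ⟨v, hv, hvw⟩ := h (Q : Set V) (fun x hx => Set.mem_toFinset.1 (hQ hx)) hQc
    exact ⟨v, Set.mem_toFinset.2 hv, fun w hw => hvw w hw⟩)
  -- the action on finite sets of vertices
  let act : MulAction A (Finset V) :=
    { smul := fun a Q => Q.image fun v => a • v
      one_smul := by
        intro Q
        change Q.image (fun v => (1 : A) • v) = Q
        simp
      mul_smul := by
        intro a b Q
        change Q.image (fun v => (a * b) • v) = (Q.image fun v => b • v).image fun v => a • v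
        rw [Finset.image_image]
        congr 1
        funext v
        exact mul_smul a b v }
  have hsm : ∀ (a : A) (Q : Finset V), a • Q = Q.image fun v => a • v := fun _ _ => rfl
  have hcard : ∀ (a : A) (Q : Finset V), (a • Q).card = Q.card := by
    intro a Q
    rw [hsm]
    exact card_image_of_injective _ (MulAction.injective a)
  have hclq : ∀ (a : A) (Q : Finset V), G.IsClique (Q : Set V) → G.IsClique ((a • Q : Finset V) : Set V) := by
    intro a Q hQ x hx y hy hxy
    rw [hsm, mem_coe, mem_image] at hx hy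
    obtain ⟨x', hx', rfl⟩ := hx
    obtain ⟨y', hy', rfl⟩ := hy
    exact hG a x' y' (hQ (mem_coe.2 hx') (mem_coe.2 hy') fun h => hxy (by rw [h]))
  have hsub : ∀ (a : A) (Q : Finset V), (Q : Set V) ⊆ W → ((a • Q : Finset V) : Set V) ⊆ W := by
    intro a Q hQ x hx
    rw [hsm, mem_coe, mem_image] at hx
    obtain ⟨x', hx', rfl⟩ := hx
    exact hW a x' (hQ hx')
  -- the sub-actions on complete sets of even and of odd size
  let S : Bool → SubMulAction A (Finset V) := fun e =>
    { carrier := {Q | (Q : Set V) ⊆ W ∧ G.IsClique (Q : Set V) ∧ (decide (Even Q.card)) = e}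
      smul_mem' := by
        rintro a Q ⟨q1, q2, q3⟩
        exact ⟨hsub a Q q1, hclq a Q q2, by rw [hcard]; exact q3⟩ }
  have hSm : ∀ e Q, Q ∈ S e ↔ (Q : Set V) ⊆ W ∧ G.IsClique (Q : Set V) ∧
      (decide (Even Q.card)) = e := fun _ _ => Iff.rfl
  have hfix : ∀ e (Q : S e), Q ∈ MulAction.fixedPoints A (S e) → (Q : Finset V) = ∅ := by
    intro e Q hQ
    by_contra hne
    apply hno
    have hQ' : ∀ a : A, a • (Q : Finset V) = Q := by
      intro a
      have := congrArg Subtype.val (hQ a)
      exact this
    refine ⟨(Q : Finset V), Q.2.1, nonempty_iff_ne_empty.2 hne, Q.2.2.1, ?_⟩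
    intro a v hv
    have h1 : a • v ∈ a • (Q : Finset V) := by
      rw [hsm]
      exact mem_image_of_mem _ hv
    rw [hQ' a] at h1
    exact h1
  have hev : Nat.card (MulAction.fixedPoints A (S true)) = 1 := by
    have hmem : (∅ : Finset V) ∈ S true := by
      rw [hSm]
      simp
    rw [Nat.card_eq_one_iff_unique]
    constructor
    · constructor
      rintro ⟨x, hx⟩ ⟨y, hy⟩
      apply Subtype.ext
      apply Subtype.ext
      rw [hfix _ x hx, hfix _ y hy]
    · refine ⟨⟨⟨∅, hmem⟩, ?_⟩⟩
      intro a
      apply Subtype.ext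
      change a • (∅ : Finset V) = ∅
      rw [hsm]
      simp
  have hod : Nat.card (MulAction.fixedPoints A (S false)) = 0 := by
    rw [Nat.card_eq_zero]
    left
    constructor
    rintro ⟨x, hx⟩
    have h1 := hfix _ x hx
    have h2 := x.2.2.2
    rw [h1] at h2
    simp at h2
  have c1 := hp.card_modEq_card_fixedPoints (S true)
  have c2 := hp.card_modEq_card_fixedPoints (S false)
  rw [hev] at c1
  rw [hod] at c2
  have hCe : Nat.card (S true) = ((Wf.powerset.filter (fun Q : Finset V => G.IsClique (Q : Set V))).filter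
      fun Q : Finset V => Even Q.card).card := by
    apply Nat.subtype_card
    intro Q
    rw [mem_filter, mem_filter, mem_powerset]
    change _ ↔ (Q : Set V) ⊆ W ∧ G.IsClique (Q : Set V) ∧ (decide (Even Q.card)) = true
    rw [decide_eq_true_eq, and_assoc]
    have : Q ⊆ Wf ↔ (Q : Set V) ⊆ W := by
      constructor
      · intro h x hx
        exact Set.mem_toFinset.1 (h hx)
      · intro h x hx
        exact Set.mem_toFinset.2 (h hx)
    rw [this]
  have hCo : Nat.card (S false) = ((Wf.powerset.filter (fun Q : Finset V => G.IsClique (Q : Set V))).filter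
      fun Q : Finset V => ¬ Even Q.card).card := by
    apply Nat.subtype_card
    intro Q
    rw [mem_filter, mem_filter, mem_powerset]
    change _ ↔ (Q : Set V) ⊆ W ∧ G.IsClique (Q : Set V) ∧ (decide (Even Q.card)) = false
    rw [decide_eq_false_iff_not, and_assoc]
    have : Q ⊆ Wf ↔ (Q : Set V) ⊆ W := by
      constructor
      · intro h x hx
        exact Set.mem_toFinset.1 (h hx)
      · intro h x hx
        exact Set.mem_toFinset.2 (h hx)
    rw [this]
  have hsum : (Nat.card (S true) : ℤ) = Nat.card (S false) := by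
    rw [hCe, hCo]
    rw [← Finset.sum_filter_add_sum_filter_not _ (fun Q : Finset V => Even Q.card)] at hcount
    have e1 : ∑ Q ∈ (Wf.powerset.filter (fun Q : Finset V => G.IsClique (Q : Set V))).filter
        (fun Q : Finset V => Even Q.card), (-1 : ℤ) ^ Q.card =
        ((Wf.powerset.filter (fun Q : Finset V => G.IsClique (Q : Set V))).filter
        fun Q : Finset V => Even Q.card).card := by
      rw [Finset.sum_congr rfl (g := fun _ => (1 : ℤ)) (fun Q hQ => by
        rw [(mem_filter.1 hQ).2.neg_one_pow])]
      simp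
    have e2 : ∑ Q ∈ (Wf.powerset.filter (fun Q : Finset V => G.IsClique (Q : Set V))).filter
        (fun Q : Finset V => ¬ Even Q.card), (-1 : ℤ) ^ Q.card =
        - (((Wf.powerset.filter (fun Q : Finset V => G.IsClique (Q : Set V))).filter
        fun Q : Finset V => ¬ Even Q.card).card : ℤ) := by
      rw [Finset.sum_congr rfl (g := fun _ => (-1 : ℤ)) (fun Q hQ => by
        rw [(Nat.not_even_iff_odd.1 (mem_filter.1 hQ).2).neg_one_pow])]
      simp
    rw [e1, e2] at hcount
    linarith
  have hnat : Nat.card (S true) = Nat.card (S false) := by exact_mod_cast hsum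
  rw [hnat] at c1
  have h10 : (1 : ℕ) ≡ 0 [MOD p] := c1.symm.trans c2
  have : p ∣ 1 := (Nat.modEq_zero_iff_dvd).1 h10
  exact (Fact.out : p.Prime).one_lt.ne' (Nat.dvd_one.1 this)

end action

end Pool.Agent.Helper227_CLQ
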