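import Pool.Agent.Helper227_CLQ.Solv

/-!
# Group graphs
-/

set_option autoImplicit false

namespace Pool.Agent.Helper227_CLQ

/-- The group graph `G(L, X)`: its vertices are the elements of the group `X`, and its edges are the
pairs `{x, x * l}` with `l ∈ L`, where `L` does not contain the identity and is closed under
inverses. -/
def groupGraph {X : Type} [Group X] (L : Set X) (h1 : (1 : X) ∉ L) (hL : ∀ x ∈ L, x⁻¹ ∈ L) :
    SimpleGraph X where
  Adj x y := ∃ l ∈ L, y = x * l
  symm := ⟨by
    rintro x y ⟨l, hl, rfl⟩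
    exact ⟨l⁻¹, hL l hl, by group⟩⟩
  loopless := ⟨by
    rintro x ⟨l, hl, h⟩
    have : l = 1 := by simpa using h.symm
    exact h1 (this ▸ hl)⟩

/-- The group graph has two disjoint maximal complete subgraphs. -/
def TwoDisjointCliques {X : Type} [Group X] (L : Set X) (h1 : (1 : X) ∉ L)
    (hL : ∀ x ∈ L, x⁻¹ ∈ L) : Prop :=
  ∃ K K' : Set X, Maximal (groupGraph L h1 hL).IsClique K ∧
    Maximal (groupGraph L h1 hL).IsClique K' ∧ Disjoint K K'

/-- Every incomplete group graph of the group `X` has two disjoint maximal complete subgraphs. -/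
def Q1For (X : Type) [Group X] : Prop :=
  ∀ (L : Set X) (h1 : (1 : X) ∉ L) (hL : ∀ x ∈ L, x⁻¹ ∈ L),
    groupGraph L h1 hL ≠ ⊤ → TwoDisjointCliques L h1 hL

section

variable {X : Type} [Group X] {L : Set X} {h1 : (1 : X) ∉ L} {hL : ∀ x ∈ L, x⁻¹ ∈ L}

theorem adj_iff {x y : X} : (groupGraph L h1 hL).Adj x y ↔ x⁻¹ * y ∈ L := by
  constructor
  · rintro ⟨l, hl, rfl⟩
    simpa using hl
  · intro h
    exact ⟨x⁻¹ * y, h, by group⟩

theorem adj_mul {a x y : X} (h : (groupGraph L h1 hL).Adj x y) :
    (groupGraph L h1 hL).Adj (a * x) (a * y) := by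
  obtain ⟨l, hl, rfl⟩ := h
  exact ⟨l, hl, by group⟩

theorem inter_of_not (h : ¬ TwoDisjointCliques L h1 hL) (K K' : Set X)
    (hK : Maximal (groupGraph L h1 hL).IsClique K)
    (hK' : Maximal (groupGraph L h1 hL).IsClique K') : (K ∩ K').Nonempty := by
  by_contra hne
  apply h
  refine ⟨K, K', hK, hK', ?_⟩
  rw [Set.disjoint_iff_inter_eq_empty]
  exact Set.not_nonempty_iff_eq_empty.1 hne

theorem ne_top_iff : groupGraph L h1 hL ≠ ⊤ ↔ ∃ y, y ≠ 1 ∧ y ∉ L := by
  constructor
  · intro h
    by_contra hcon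
    push Not at hcon
    apply h
    ext x y
    rw [adj_iff, SimpleGraph.top_adj]
    constructor
    · intro hl hxy
      rw [hxy, inv_mul_cancel] at hl
      exact h1 hl
    · intro hxy
      apply hcon
      intro h0
      exact hxy (inv_mul_eq_one.1 h0)
  · rintro ⟨y, hy1, hyL⟩ h
    have h2 : (groupGraph L h1 hL).Adj 1 y := by
      rw [h, SimpleGraph.top_adj]
      exact hy1.symm
    rw [adj_iff, inv_one, one_mul] at h2
    exact hyL h2

/-- If there are no two disjoint cliques, the maximal complete sets which are invariant under left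
multiplication with a solvable subgroup pairwise intersect. -/
theorem inv_inter [Finite X] (h : ¬ TwoDisjointCliques L h1 hL) (H : Subgroup X)
    (hH : Group.IsSolvable H) (Q R : Set X)
    (hQ : Maximal (InvClq H (groupGraph L h1 hL)) Q)
    (hR : Maximal (InvClq H (groupGraph L h1 hL)) R) : (Q ∩ R).Nonempty :=
  solvable_inter _ H X (groupGraph L h1 hL) rfl
    (fun a u v huv => by
      change (groupGraph L h1 hL).Adj ((a : X) * u) ((a : X) * v)
      exact adj_mul huv) (inter_of_not h) Q R hQ hR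

/-- If there are no two disjoint cliques, `L ∪ {1}` contains a conjugate of every solvable
subgroup. -/
theorem conj_subset [Finite X] (h : ¬ TwoDisjointCliques L h1 hL) (H : Subgroup X)
    (hH : Group.IsSolvable H) : ∃ x : X, ∀ a ∈ H, x⁻¹ * a * x = 1 ∨ x⁻¹ * a * x ∈ L := by
  obtain ⟨Q, -, hQ⟩ := exists_maxInv H (groupGraph L h1 hL) (S := ∅)
    ⟨SimpleGraph.isClique_empty, fun _ _ hv => absurd hv (Set.notMem_empty _)⟩
  obtain ⟨x, hx, -⟩ := inv_inter h H hH Q Q hQ hQ
  refine ⟨x, fun a ha => ?_⟩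
  have hax : a * x ∈ Q := hQ.1.2 ⟨a, ha⟩ x hx
  by_cases hxa : x = a * x
  · left
    rw [mul_assoc, ← hxa, inv_mul_cancel]
  · right
    have := hQ.1.1 hx hax hxa
    rw [adj_iff, ← mul_assoc] at this
    exact this

end

end Pool.Agent.Helper227_CLQ
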