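import Pool.Agent.Helper227_CLQ.Fixed

/-!
# Invariant cliques for solvable groups
-/

set_option autoImplicit false

namespace Pool.Agent.Helper227_CLQ

universe u v

section basic

variable {V : Type v}

theorem exists_max [Finite V] (G : SimpleGraph V) {S : Set V} (hS : G.IsClique S) :
    ∃ K, S ⊆ K ∧ Maximal G.IsClique K := by
  obtain ⟨K, h1, h2⟩ := Finite.exists_le_maximal (p := fun S : Set V => G.IsClique S) hS
  exact ⟨K, h1, h2⟩

theorem exists_maxInv [Finite V] (A : Type u) [Group A] [MulAction A V] (G : SimpleGraph V)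
    {S : Set V} (hS : InvClq A G S) : ∃ K, S ⊆ K ∧ Maximal (InvClq A G) K := by
  obtain ⟨K, h1, h2⟩ := Finite.exists_le_maximal (p := fun S : Set V => InvClq A G S) hS
  exact ⟨K, h1, h2⟩

theorem clique_union {G : SimpleGraph V} {S T : Set V} (hS : G.IsClique S) (hT : G.IsClique T)
    (h : ∀ s ∈ S, ∀ t ∈ T, s ≠ t → G.Adj s t) : G.IsClique (S ∪ T) := by
  rintro x (hx | hx) y (hy | hy) hxy
  · exact hS hx hy hxy
  · exact h x hx y hy hxy
  · exact (h y hy x hx hxy.symm).symm
  · exact hT hx hy hxy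

theorem mem_of_max {G : SimpleGraph V} {K : Set V} (hK : Maximal G.IsClique K) {v : V}
    (h : ∀ w ∈ K, v ≠ w → G.Adj v w) : v ∈ K := by
  have h1 : G.IsClique (insert v K) := by
    rw [SimpleGraph.isClique_insert]
    exact ⟨hK.1, h⟩
  exact hK.2 h1 (Set.subset_insert v K) (Set.mem_insert v K)

end basic

section pgroup

variable {V : Type v} [Finite V] {A : Type u} [Group A] [Finite A] [MulAction A V] {p : ℕ}
  [Fact p.Prime] {G : SimpleGraph V}

/-- A maximal invariant complete set meets every maximal complete set. -/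
theorem step_a (hp : IsPGroup p A)
    (hG : ∀ (a : A) (u v : V), G.Adj u v → G.Adj (a • u) (a • v))
    (hS : ∀ K K' : Set V, Maximal G.IsClique K → Maximal G.IsClique K' → (K ∩ K').Nonempty)
    {Q K : Set V} (hQ : Maximal (InvClq A G) Q) (hK : Maximal G.IsClique K) :
    (Q ∩ K).Nonempty := by
  by_contra hne
  rw [Set.not_nonempty_iff_eq_empty] at hne
  let W : Set V := {v | v ∉ Q ∧ ∀ w ∈ Q, G.Adj v w}
  have hinvQ : ∀ (a : A) (v : V), a • v ∈ Q → v ∈ Q := by
    intro a v h
    have := hQ.1.2 a⁻¹ _ h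
    rwa [inv_smul_smul] at this
  obtain ⟨R, hRW, hRne, hR⟩ := exists_inv hp G hG W (K ∩ W) (by
    rintro a v ⟨h1, h2⟩
    refine ⟨fun h => h1 (hinvQ a v h), fun w hw => ?_⟩
    have h3 := hG a v (a⁻¹ • w) (h2 _ (hQ.1.2 a⁻¹ w hw))
    rwa [smul_inv_smul] at h3) Set.inter_subset_right (hK.1.subset Set.inter_subset_left) (by
    intro R hR hRc
    have hQR : G.IsClique (Q ∪ R) := clique_union hQ.1.1 hRc
      (fun s hs t ht _ => ((hR ht).2 s hs).symm)
    obtain ⟨K', hK'1, hK'2⟩ := exists_max G hQR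
    obtain ⟨v, hv1, hv2⟩ := hS K K' hK hK'2
    have hvQ : v ∉ Q := by
      intro h
      have : v ∈ Q ∩ K := ⟨h, hv1⟩
      rw [hne] at this
      exact this
    refine ⟨v, ⟨hv1, hvQ, fun w hw => ?_⟩, fun w hw hvw => ?_⟩
    · exact hK'2.1 hv2 (hK'1 (Or.inl hw)) (fun h => hvQ (h ▸ hw))
    · exact hK'2.1 hv2 (hK'1 (Or.inr hw)) hvw)
  have hQR : InvClq A G (Q ∪ R) := by
    refine ⟨clique_union hQ.1.1 hR.1 (fun s hs t ht _ => ((hRW ht).2 s hs).symm), ?_⟩
    rintro a v (hv | hv)
    · exact Or.inl (hQ.1.2 a v hv)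
    · exact Or.inr (hR.2 a v hv)
  obtain ⟨r, hr⟩ := hRne
  have : r ∈ Q := hQ.2 hQR Set.subset_union_left (Or.inr hr)
  exact (hRW hr).1 this

/-- The maximal invariant complete sets pairwise intersect. -/
theorem step_b (hp : IsPGroup p A)
    (hG : ∀ (a : A) (u v : V), G.Adj u v → G.Adj (a • u) (a • v))
    (hS : ∀ K K' : Set V, Maximal G.IsClique K → Maximal G.IsClique K' → (K ∩ K').Nonempty)
    {Q R : Set V} (hQ : Maximal (InvClq A G) Q) (hR : Maximal (InvClq A G) R) :
    (Q ∩ R).Nonempty := by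
  by_contra hne
  rw [Set.not_nonempty_iff_eq_empty] at hne
  obtain ⟨K, hK1, hK2⟩ := exists_max G hR.1.1
  obtain ⟨v, hvQ, hvK⟩ := step_a hp hG hS hQ hK2
  have hdis : ∀ x ∈ Q, x ∉ R := by
    intro x hx hxR
    have : x ∈ Q ∩ R := ⟨hx, hxR⟩
    rw [hne] at this
    exact this
  let B : Set V := {x | x ∈ Q ∧ ∀ w ∈ R, G.Adj x w}
  have hvB : v ∈ B := ⟨hvQ, fun w hw => hK2.1 hvK (hK1 hw) (fun h => hdis v hvQ (h ▸ hw))⟩
  have hBR : InvClq A G (B ∪ R) := by
    refine ⟨clique_union (hQ.1.1.subset fun x hx => hx.1) hR.1.1 (fun s hs t ht _ => hs.2 t ht), ?_⟩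
    rintro a x (hx | hx)
    · left
      refine ⟨hQ.1.2 a x hx.1, fun w hw => ?_⟩
      have h3 := hG a x (a⁻¹ • w) (hx.2 _ (hR.1.2 a⁻¹ w hw))
      rwa [smul_inv_smul] at h3
    · exact Or.inr (hR.1.2 a x hx)
  have : v ∈ R := hR.2 hBR Set.subset_union_right (Or.inl hvB)
  exact hdis v hvQ this

end pgroup

section quotient

variable {V : Type v} {A : Type u} [Group A] [MulAction A V]

/-- The orbits of the subgroup `P` which are complete. -/
def Orb (P : Subgroup A) (G : SimpleGraph V) : Type v :=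
  {O : Set V // (∃ x, O = MulAction.orbit P x) ∧ G.IsClique O}

/-- The graph on the complete orbits of `P`. -/
def orbGraph (P : Subgroup A) (G : SimpleGraph V) : SimpleGraph (Orb P G) where
  Adj O O' := O ≠ O' ∧ G.IsClique (O.1 ∪ O'.1)
  symm := ⟨fun O O' h => ⟨h.1.symm, by rw [Set.union_comm]; exact h.2⟩⟩
  loopless := ⟨fun O h => h.1 rfl⟩

instance [Finite V] (P : Subgroup A) (G : SimpleGraph V) : Finite (Orb P G) := by
  unfold Orb
  infer_instance

theorem Orb.eq_orbit {P : Subgroup A} {G : SimpleGraph V} (O : Orb P G) {v : V} (hv : v ∈ O.1) :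
    O.1 = MulAction.orbit P v := by
  obtain ⟨x, hx⟩ := O.2.1
  rw [hx] at hv ⊢
  exact (MulAction.orbit_eq_iff.2 hv).symm

theorem image_orbit (P : Subgroup A) [P.Normal] (a : A) (x : V) :
    (fun v => a • v) '' MulAction.orbit P x = MulAction.orbit P (a • x) := by
  ext y
  constructor
  · rintro ⟨_, ⟨g, rfl⟩, rfl⟩
    refine ⟨⟨a * g * a⁻¹, Subgroup.Normal.conj_mem inferInstance _ g.2 a⟩, ?_⟩
    change (a * g * a⁻¹) • a • x = a • (g : A) • x
    simp only [mul_smul, inv_smul_smul]
  · rintro ⟨g, rfl⟩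
    refine ⟨(a⁻¹ * g * a) • x, ⟨⟨a⁻¹ * g * a, ?_⟩, rfl⟩, ?_⟩
    · have := Subgroup.Normal.conj_mem (inferInstance : P.Normal) _ g.2 a⁻¹
      rwa [inv_inv] at this
    · change a • (a⁻¹ * g * a) • x = (g : A) • a • x
      simp only [mul_smul, smul_inv_smul]

/-- Graph automorphisms permute the complete orbits of a normal subgroup. -/
def orbMap (P : Subgroup A) [P.Normal] (G : SimpleGraph V)
    (hG : ∀ (a : A) (u v : V), G.Adj u v → G.Adj (a • u) (a • v)) (a : A) (O : Orb P G) :
    Orb P G :=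
  ⟨(fun v => a • v) '' O.1, by
    obtain ⟨x, hx⟩ := O.2.1
    exact ⟨a • x, by rw [hx, image_orbit]⟩, by
    rintro _ ⟨x, hx, rfl⟩ _ ⟨y, hy, rfl⟩ hxy
    exact hG a x y (O.2.2 hx hy fun h => hxy (by rw [h]))⟩

/-- The action of `A` on the complete orbits of a normal subgroup. -/
def orbHom (P : Subgroup A) [P.Normal] (G : SimpleGraph V)
    (hG : ∀ (a : A) (u v : V), G.Adj u v → G.Adj (a • u) (a • v)) :
    A →* Equiv.Perm (Orb P G) where
  toFun a :=
    { toFun := orbMap P G hG a
      invFun := orbMap P G hG a⁻¹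
      left_inv := by
        intro O
        apply Subtype.ext
        change (fun v => a⁻¹ • v) '' ((fun v => a • v) '' O.1) = O.1
        rw [Set.image_image]
        simp
      right_inv := by
        intro O
        apply Subtype.ext
        change (fun v => a • v) '' ((fun v => a⁻¹ • v) '' O.1) = O.1
        rw [Set.image_image]
        simp }
  map_one' := by
    ext O
    apply Subtype.ext
    change (fun v => (1 : A) • v) '' O.1 = O.1
    simp
  map_mul' a b := by
    ext O
    apply Subtype.ext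
    change (fun v => (a * b) • v) '' O.1 = (fun v => a • v) '' ((fun v => b • v) '' O.1)
    rw [Set.image_image]
    simp only [mul_smul]

theorem orbHom_val (P : Subgroup A) [P.Normal] (G : SimpleGraph V)
    (hG : ∀ (a : A) (u v : V), G.Adj u v → G.Adj (a • u) (a • v)) (a : A) (O : Orb P G) :
    (orbHom P G hG a O).1 = (fun v => a • v) '' O.1 := rfl

theorem orbHom_ker (P : Subgroup A) [P.Normal] (G : SimpleGraph V)
    (hG : ∀ (a : A) (u v : V), G.Adj u v → G.Adj (a • u) (a • v)) (a : A) (ha : a ∈ P) :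
    orbHom P G hG a = 1 := by
  ext O
  apply Subtype.ext
  rw [orbHom_val]
  change (fun v => a • v) '' O.1 = O.1
  obtain ⟨x, hx⟩ := O.2.1
  rw [hx, image_orbit]
  exact MulAction.orbit_eq_iff.2 ⟨⟨a, ha⟩, rfl⟩

/-- The union of a set of complete orbits. -/
def un {P : Subgroup A} {G : SimpleGraph V} (S : Set (Orb P G)) : Set V := {v | ∃ O ∈ S, v ∈ O.1}

theorem un_clique {P : Subgroup A} {G : SimpleGraph V} {S : Set (Orb P G)}
    (hS : (orbGraph P G).IsClique S) : G.IsClique (un S) := by
  rintro x ⟨O, hO, hx⟩ y ⟨O', hO', hy⟩ hxy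
  by_cases h : O = O'
  · subst h
    exact O.2.2 hx hy hxy
  · exact (hS hO hO' h).2 (Or.inl hx) (Or.inr hy) hxy

theorem orb_subset_un {P : Subgroup A} {G : SimpleGraph V} {S : Set (Orb P G)} {O : Orb P G}
    (hO : O ∈ S) : O.1 ⊆ un S := fun _ hv => ⟨O, hO, hv⟩

/-- The orbit of a point of a `P`-invariant complete set. -/
def orbOf {P : Subgroup A} {G : SimpleGraph V} {S : Set V} (hS : InvClq P G S) {v : V}
    (hv : v ∈ S) : Orb P G :=
  ⟨MulAction.orbit P v, ⟨v, rfl⟩, hS.1.subset (by rintro _ ⟨g, rfl⟩; exact hS.2 g v hv)⟩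

theorem orbOf_subset {P : Subgroup A} {G : SimpleGraph V} {S : Set V} (hS : InvClq P G S) {v : V}
    (hv : v ∈ S) : (orbOf hS hv).1 ⊆ S := by
  rintro _ ⟨g, rfl⟩
  exact hS.2 g v hv

theorem mem_orbOf {P : Subgroup A} {G : SimpleGraph V} {S : Set V} (hS : InvClq P G S) {v : V}
    (hv : v ∈ S) : v ∈ (orbOf hS hv).1 := MulAction.mem_orbit_self v

theorem un_max {P : Subgroup A} {G : SimpleGraph V} {S : Set (Orb P G)}
    (hS : Maximal (orbGraph P G).IsClique S) : Maximal (InvClq P G) (un S) := by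
  refine ⟨⟨un_clique hS.1, ?_⟩, ?_⟩
  · rintro g v ⟨O, hO, hv⟩
    refine ⟨O, hO, ?_⟩
    rw [O.eq_orbit hv]
    exact ⟨g, rfl⟩
  · intro T hT hST v hv
    refine ⟨orbOf hT hv, ?_, mem_orbOf hT hv⟩
    apply mem_of_max hS
    intro O hO hne
    refine ⟨hne, hT.1.subset ?_⟩
    exact Set.union_subset (orbOf_subset hT hv) ((orb_subset_un hO).trans hST)

/-- The orbit graph of a normal `p`-subgroup inherits the intersection property. -/
theorem orbGraph_inter [Finite V] [Finite A] {p : ℕ} [Fact p.Prime] (P : Subgroup A) [P.Normal]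
    (hp : IsPGroup p P) (G : SimpleGraph V)
    (hG : ∀ (a : A) (u v : V), G.Adj u v → G.Adj (a • u) (a • v))
    (hS : ∀ K K' : Set V, Maximal G.IsClique K → Maximal G.IsClique K' → (K ∩ K').Nonempty)
    (K K' : Set (Orb P G)) (hK : Maximal (orbGraph P G).IsClique K)
    (hK' : Maximal (orbGraph P G).IsClique K') : (K ∩ K').Nonempty := by
  obtain ⟨v, ⟨O, hO, hv⟩, ⟨O', hO', hv'⟩⟩ := step_b hp (G := G)
    (fun a u v h => hG (a : A) u v h) hS (un_max hK) (un_max hK')
  have : O = O' := Subtype.ext (by rw [O.eq_orbit hv, O'.eq_orbit hv'])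
  subst this
  exact ⟨O, hO, hO'⟩

end quotient

/-- A nontrivial finite solvable group has a nontrivial normal `p`-subgroup. -/
theorem exists_normal_pgroup (A : Type u) [Group A] [Finite A] [Group.IsSolvable A] [Nontrivial A] :
    ∃ (p : ℕ) (_ : p.Prime) (P : Subgroup A), P.Normal ∧ P ≠ ⊥ ∧ IsPGroup p P := by
  classical
  have hex : ∃ n, derivedSeries A n = ⊥ := (Group.isSolvable_def A).1 inferInstance
  have h0 : Nat.find hex ≠ 0 := by
    intro h
    have h1 := Nat.find_spec hex
    rw [h, derivedSeries_zero] at h1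
    exact (top_ne_bot : (⊤ : Subgroup A) ≠ ⊥) h1
  obtain ⟨k, hk⟩ := Nat.exists_eq_succ_of_ne_zero h0
  have hD1 : derivedSeries A (k + 1) = ⊥ := by
    have := Nat.find_spec hex
    rwa [hk] at this
  have hD0 : derivedSeries A k ≠ ⊥ := Nat.find_min hex (by omega)
  set D := derivedSeries A k with hD
  have hDn : D.Normal := derivedSeries_normal A k
  rw [derivedSeries_succ] at hD1
  have hcomm : ∀ a ∈ D, ∀ b ∈ D, a * b = b * a := by
    intro a ha b hb
    have h1 := Subgroup.commutator_mem_commutator ha hb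
    rw [hD1, Subgroup.mem_bot] at h1
    exact commutatorElement_eq_one_iff_mul_comm.1 h1
  have hDnt : Nontrivial D := (Subgroup.nontrivial_iff_ne_bot D).2 hD0
  obtain ⟨p, hp, hpd⟩ := Nat.exists_prime_and_dvd (n := Nat.card D) (by
    have := Finite.one_lt_card (α := D)
    omega)
  have := Fact.mk hp
  obtain ⟨x, hx⟩ := exists_prime_orderOf_dvd_card' (G := D) p hpd
  let P : Subgroup A :=
    { carrier := {a | a ∈ D ∧ a ^ p = 1}
      one_mem' := ⟨D.one_mem, one_pow p⟩
      mul_mem' := by
        rintro a b ⟨ha, ha'⟩ ⟨hb, hb'⟩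
        refine ⟨D.mul_mem ha hb, ?_⟩
        have hc : Commute a b := hcomm a ha b hb
        rw [hc.mul_pow, ha', hb', one_mul]
      inv_mem' := by
        rintro a ⟨ha, ha'⟩
        refine ⟨D.inv_mem ha, ?_⟩
        rw [inv_pow, ha', inv_one] }
  refine ⟨p, hp, P, ?_, ?_, ?_⟩
  · constructor
    rintro a ⟨ha, ha'⟩ g
    refine ⟨hDn.conj_mem a ha g, ?_⟩
    rw [conj_pow, ha', mul_one, mul_inv_cancel]
  · intro hP
    have hxP : (x : A) ∈ P := by
      refine ⟨x.2, ?_⟩
      have := pow_orderOf_eq_one x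
      rw [hx] at this
      have h2 := congrArg Subtype.val this
      simpa using h2
    rw [hP, Subgroup.mem_bot] at hxP
    have hx1 : x = 1 := Subtype.ext hxP
    rw [hx1, orderOf_one] at hx
    exact hp.one_lt.ne hx
  · rintro ⟨a, ha⟩
    refine ⟨1, ?_⟩
    apply Subtype.ext
    have := ha.2
    simpa using this

/-- If the maximal complete sets of a finite graph pairwise intersect and a finite solvable group
acts on the graph, then the maximal invariant complete sets pairwise intersect. -/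
theorem solvable_inter (n : ℕ) : ∀ (A : Type u) [Group A] [Finite A] [Group.IsSolvable A]
    (V : Type v) [Finite V] [MulAction A V] (G : SimpleGraph V), Nat.card A = n →
    (∀ (a : A) (u v : V), G.Adj u v → G.Adj (a • u) (a • v)) →
    (∀ K K' : Set V, Maximal G.IsClique K → Maximal G.IsClique K' → (K ∩ K').Nonempty) →
    ∀ Q R : Set V, Maximal (InvClq A G) Q → Maximal (InvClq A G) R → (Q ∩ R).Nonempty := by
  induction n using Nat.strong_induction_on with
  | _ n ih =>
    intro A _ _ _ V _ _ G hn hG hS Q R hQ hR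
    rcases subsingleton_or_nontrivial A with hA | hA
    · have key : ∀ S : Set V, Maximal (InvClq A G) S → Maximal G.IsClique S := by
        intro S hS'
        refine ⟨hS'.1.1, fun T hT hST => hS'.2 ⟨hT, ?_⟩ hST⟩
        intro a v hv
        rw [Subsingleton.elim a 1, one_smul]
        exact hv
      exact hS Q R (key Q hQ) (key R hR)
    · obtain ⟨p, hp, P, hPn, hPne, hPp⟩ := exists_normal_pgroup A
      have := Fact.mk hp
      let ψ : A ⧸ P →* Equiv.Perm (Orb P G) :=
        QuotientGroup.lift P (orbHom P G hG) (fun a ha => orbHom_ker P G hG a ha)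
      let _ : MulAction (A ⧸ P) (Orb P G) := MulAction.compHom (Orb P G) ψ
      have hsm : ∀ (a : A) (O : Orb P G), (((QuotientGroup.mk a : A ⧸ P) • O : Orb P G)).1 =
          (fun v => a • v) '' O.1 := by
        intro a O
        rfl
      have hcard : Nat.card (A ⧸ P) < n := by
        rw [← hn, Subgroup.card_eq_card_quotient_mul_card_subgroup P]
        have h1 : 1 < Nat.card P := by
          have := (Subgroup.nontrivial_iff_ne_bot P).2 hPne
          exact Finite.one_lt_card
        have h2 : 0 < Nat.card (A ⧸ P) := Nat.card_pos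
        nlinarith
      have hG' : ∀ (a : A ⧸ P) (O O' : Orb P G), (orbGraph P G).Adj O O' →
          (orbGraph P G).Adj (a • O) (a • O') := by
        intro a O O' h
        induction a using QuotientGroup.induction_on with
        | H a =>
          refine ⟨fun h' => h.1 (MulAction.injective _ h'), ?_⟩
          rw [hsm, hsm, ← Set.image_union]
          rintro _ ⟨x, hx, rfl⟩ _ ⟨y, hy, rfl⟩ hxy
          exact hG a x y (h.2 hx hy fun h => hxy (by rw [h]))
      have hS' := orbGraph_inter P hPp G hG hS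
      -- the set of orbits in a maximal invariant complete set
      have key : ∀ S : Set V, Maximal (InvClq A G) S →
          Maximal (InvClq (A ⧸ P) (orbGraph P G)) {O : Orb P G | O.1 ⊆ S} := by
        intro S hSm
        have hSP : InvClq P G S := ⟨hSm.1.1, fun g v hv => hSm.1.2 (g : A) v hv⟩
        refine ⟨⟨?_, ?_⟩, ?_⟩
        · intro O hO O' hO' hne
          exact ⟨hne, hSm.1.1.subset (Set.union_subset hO hO')⟩
        · intro a O hO
          induction a using QuotientGroup.induction_on with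
          | H a =>
            change (((QuotientGroup.mk a : A ⧸ P) • O : Orb P G)).1 ⊆ S
            rw [hsm]
            rintro _ ⟨x, hx, rfl⟩
            exact hSm.1.2 a x (hO hx)
        · intro T hT hST
          have hTinv : InvClq A G (un T) := by
            refine ⟨un_clique hT.1, ?_⟩
            rintro a v ⟨O, hO, hv⟩
            refine ⟨(QuotientGroup.mk a : A ⧸ P) • O, hT.2 _ O hO, ?_⟩
            rw [hsm]
            exact ⟨v, hv, rfl⟩
          have hsub : S ⊆ un T := by
            intro v hv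
            exact ⟨orbOf hSP hv, hST (orbOf_subset hSP hv), mem_orbOf hSP hv⟩
          have hle : un T ⊆ S := hSm.2 hTinv hsub
          intro O hO
          exact (orb_subset_un hO).trans hle
      obtain ⟨O, hOQ, hOR⟩ := ih _ hcard (A ⧸ P) (Orb P G) (orbGraph P G) rfl hG' hS' _ _
        (key Q hQ) (key R hR)
      obtain ⟨x, hx⟩ := O.2.1
      have hxO : x ∈ O.1 := by
        rw [hx]
        exact MulAction.mem_orbit_self x
      exact ⟨x, hOQ hxO, hOR hxO⟩

end Pool.Agent.Helper227_CLQ
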